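import Pool.Agent.Q129.FirstFit

set_option autoImplicit false

/-!
# First-Fit on chordal graphs (Irani's question)

There is an absolute constant `c > 0` such that for every `k ≥ 2` and every `n ≥ k ^ 2` there is a
chordal graph with exactly `n` vertices, clique number `k` and First-Fit chromatic number at least
`c * k * log n`.  The graph is the blow-up of a binomial tree (each vertex replaced by a clique on
`⌊k / 2⌋` vertices) together with a disjoint clique on `k` vertices and isolated vertices.
-/

theorem Pool.Agent.Results.MP_4aa424_co.ChordalLower.result :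
    ∃ c : ℝ, 0 < c ∧ ∀ k : ℕ, 2 ≤ k → ∀ n : ℕ, k ^ 2 ≤ n →
      ∃ G : SimpleGraph (Fin n), Q129.FirstFit.IsChordal G ∧ G.cliqueNum = k ∧
        c * k * Real.log n ≤ Q129.FirstFit.firstFitNumber G :=
  ⟨1 / 6, by norm_num, fun _ hk _ hn => Q129.FirstFit.exists_graph hk hn⟩
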